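import Pool.Agent.W774.TL.Stm

/-!
TL-MAIN: the Lagrangian side.
-/

set_option autoImplicit false

namespace Pool.Agent.W435.TL

open Set Filter Topology
open Pool.Agent.W774.TL

lemma S_int (u : ℝ) (m : ℤ) : S (u + m) = S u := by
  unfold S
  rw [mul_add, show 2 * Real.pi * (m : ℝ) = m * (2 * Real.pi) by ring, Real.sin_add_int_mul_two_pi]

lemma h_per (x p t : ℝ) : h (x + 1) p t = h x p t ∧ h x p (t + 1) = h x p t := by
  have e1 : ∀ j : ℤ, E j (x + 1) p t = E j x p t := by
    intro j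
    unfold E V
    have := S_int (x - j * t) 1
    rw [show x + 1 - j * t = x - j * t + ((1 : ℤ) : ℝ) by push_cast; ring, this]
  have e2 : ∀ j : ℤ, E j x p (t + 1) = E j x p t := by
    intro j
    unfold E V
    have := S_int (x - j * t) (-j)
    rw [show x - j * (t + 1) = x - j * t + ((-j : ℤ) : ℝ) by push_cast; ring, this]
  constructor
  · unfold h Z
    simp only [e1]
  · unfold h Z
    simp only [e2]

lemma h_dp (h2 : P_DER) (x p t : ℝ) : HasDerivAt (fun s => h x s t) (hp x p t) p := by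
  obtain ⟨a1, a2, a3, a4⟩ := h2 x p t
  exact a2.log a1.ne'

lemma h_dx (h2 : P_DER) (x p t : ℝ) : HasDerivAt (fun s => h s p t) (-fo x p t) x := by
  obtain ⟨a1, a2, a3, a4⟩ := h2 x p t
  have := a3.log a1.ne'
  refine this.congr_deriv ?_
  unfold fo
  rw [neg_div]

lemma h_deriv (h2 : P_DER) (x t : ℝ) : deriv (fun s => h x s t) = fun p => hp x p t := by
  funext p
  exact (h_dp h2 x p t).deriv

lemma h_cvx (h2 : P_DER) (h3 : P_CVX) (x p t : ℝ) :
    0 < deriv (deriv (fun s => h x s t)) p := by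
  rw [h_deriv h2]
  obtain ⟨a1, a2, a3, a4⟩ := h2 x p t
  have h5 : HasDerivAt (fun p => hp x p t) (((∑' j : ℤ, (j : ℝ) ^ 2 * E j x p t) * Z x p t -
      (∑' j : ℤ, (j : ℝ) * E j x p t) * (∑' j : ℤ, (j : ℝ) * E j x p t)) / Z x p t ^ 2) p :=
    a4.div a2 a1.ne'
  rw [h5.deriv]
  have h6 := h3 x p t
  refine div_pos ?_ (by positivity)
  have h7 : Z x p t = ∑' j : ℤ, E j x p t := rfl
  rw [h7]
  nlinarith [h6]

lemma per_int {l : ℝ → ℝ → ℝ → ℝ}
    (hl : ∀ x v t : ℝ, l (x + 1) v t = l x v t ∧ l x v (t + 1) = l x v t)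
    (x v t : ℝ) (k m : ℤ) : l (x + k) v (t + m) = l x v t := by
  have p1 : ∀ v t : ℝ, Function.Periodic (fun x => l x v t) 1 := fun v t x => (hl x v t).1
  have p2 : ∀ x v : ℝ, Function.Periodic (fun t => l x v t) 1 := fun x v t => (hl x v t).2
  have e1 := (p1 v (t + m)).int_mul k x
  have e2 := (p2 x v).int_mul m t
  simp only [mul_one] at e1 e2
  rw [e1, e2]

section

variable {n : ℕ} {l P : ℝ → ℝ → ℝ → ℝ}

/-- the Lagrangian -/
def LL (n : ℕ) (l : ℝ → ℝ → ℝ → ℝ) (x v : Fin n → ℝ) (t : ℝ) : ℝ := ∑ i, l (x i) (v i) t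

lemma Lv_eq (e3 : ∀ x v t : ℝ, HasDerivAt (fun s => l x s t) (P x v t) v)
    (f : (Fin n → ℝ) → ℝ → ℝ) (i : Fin n) (x v : Fin n → ℝ) (t : ℝ) :
    Lv (fun x v t => LL n l x v t + f x t) i x v t = P (x i) (v i) t := by
  unfold Lv
  have h1 : HasDerivAt (fun s => LL n l x (Function.update v i s) t)
      (∑ j : Fin n, if j = i then P (x i) (v i) t else 0) (v i) := by
    unfold LL
    refine HasDerivAt.fun_sum fun j _ => ?_
    by_cases hj : j = i
    · subst hj
      simp only [Function.update_self, if_true]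
      exact e3 _ _ _
    · simp only [Function.update_of_ne hj, hj, if_false]
      exact hasDerivAt_const _ _
  rw [Finset.sum_ite_eq' Finset.univ i] at h1
  simp only [Finset.mem_univ, if_true] at h1
  exact (h1.add_const (f x t)).deriv

lemma f_upd {f : (Fin n → ℝ) → ℝ → ℝ} (hf : C2 f) (i : Fin n) (x : Fin n → ℝ) (t : ℝ) :
    HasDerivAt (fun s => f (Function.update x i s) t) (Df f i x t) (x i) := by
  have h1 : Differentiable ℝ (fun q : (Fin n → ℝ) × ℝ => f q.1 q.2) :=
    hf.differentiable (by norm_num)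
  have h2 : DifferentiableAt ℝ (fun s : ℝ => f (Function.update x i s) t) (x i) := by
    have h3 : Differentiable ℝ (fun s : ℝ => ((Function.update x i s, t) : (Fin n → ℝ) × ℝ)) := by
      have h4 : Differentiable ℝ (fun s : ℝ => Function.update x i s) := fun s =>
        (hasDerivAt_update x i s).differentiableAt
      exact h4.prodMk (differentiable_const t)
    exact (h1.comp h3) (x i)
  exact h2.hasDerivAt

lemma Lx_eq (e4 : ∀ x v t : ℝ, HasDerivAt (fun s => l s v t) (fo x (P x v t) t) x)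
    {f : (Fin n → ℝ) → ℝ → ℝ} (hf : C2 f) (i : Fin n) (x v : Fin n → ℝ) (t : ℝ) :
    Lx (fun x v t => LL n l x v t + f x t) i x v t =
      fo (x i) (P (x i) (v i) t) t + Df f i x t := by
  unfold Lx
  have h1 : HasDerivAt (fun s => LL n l (Function.update x i s) v t)
      (∑ j : Fin n, if j = i then fo (x i) (P (x i) (v i) t) t else 0) (x i) := by
    unfold LL
    refine HasDerivAt.fun_sum fun j _ => ?_
    by_cases hj : j = i
    · subst hj
      simp only [Function.update_self, if_true]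
      exact e4 _ _ _
    · simp only [Function.update_of_ne hj, hj, if_false]
      exact hasDerivAt_const _ _
  rw [Finset.sum_ite_eq' Finset.univ i] at h1
  simp only [Finset.mem_univ, if_true] at h1
  exact (h1.add (f_upd hf i x t)).deriv

/-- existence of orbits -/
lemma exist (h8 : P_COMPL) (e1 : ∀ x v t : ℝ, hp x (P x v t) t = v)
    (e2 : ∀ x p t : ℝ, P x (hp x p t) t = p)
    (e3 : ∀ x v t : ℝ, HasDerivAt (fun s => l x s t) (P x v t) v)
    (e4 : ∀ x v t : ℝ, HasDerivAt (fun s => l s v t) (fo x (P x v t) t) x)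
    {f : (Fin n → ℝ) → ℝ → ℝ} (hf : C2 f) (hper : PerF f) (t0 : ℝ) (x0 v0 : Fin n → ℝ) :
    ∃ γ : ℝ → (Fin n → ℝ), IsEL (fun x v t => LL n l x v t + f x t) γ ∧ γ t0 = x0 ∧
      deriv γ t0 = v0 := by
  obtain ⟨X, Q, hX, hQ, hd⟩ := h8 n f hf hper t0 x0 (fun i => P (x0 i) (v0 i) t0)
  have hdX : ∀ t, deriv X t = fun i => hp (X t i) (Q t i) t := fun t => (hd t).1.deriv
  refine ⟨X, ⟨fun t => (hd t).1.differentiableAt, fun t i => ?_⟩, hX, ?_⟩
  · have h1 : (fun s => Lv (fun x v t => LL n l x v t + f x t) i (X s) (deriv X s) s) =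
        fun s => Q s i := by
      funext s
      rw [Lv_eq e3 f i (X s) (deriv X s) s, hdX]
      exact e2 _ _ _
    rw [h1, Lx_eq e4 hf, hdX, e2]
    exact (hasDerivAt_pi.1 (hd t).2) i
  · rw [hdX, hX, hQ]
    funext i
    exact e1 _ _ _

/-- an orbit gives a solution of the Hamiltonian system -/
lemma ham (e1 : ∀ x v t : ℝ, hp x (P x v t) t = v)
    (e3 : ∀ x v t : ℝ, HasDerivAt (fun s => l x s t) (P x v t) v)
    (e4 : ∀ x v t : ℝ, HasDerivAt (fun s => l s v t) (fo x (P x v t) t) x)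
    {f : (Fin n → ℝ) → ℝ → ℝ} (hf : C2 f) {γ : ℝ → (Fin n → ℝ)}
    (hγ : IsEL (fun x v t => LL n l x v t + f x t) γ) (i : Fin n) (t : ℝ) :
    HasDerivAt (fun s => γ s i) (hp (γ t i) (P (γ t i) (deriv γ t i) t) t) t ∧
    HasDerivAt (fun s => P (γ s i) (deriv γ s i) s)
      (fo (γ t i) (P (γ t i) (deriv γ t i) t) t + Df f i (γ t) t) t := by
  obtain ⟨g1, g2⟩ := hγ
  constructor
  · rw [e1]
    exact (hasDerivAt_pi.1 (g1 t).hasDerivAt) i
  · have h1 := g2 t i
    rw [Lx_eq e4 hf] at h1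
    have h2 : (fun s => Lv (fun x v t => LL n l x v t + f x t) i (γ s) (deriv γ s) s) =
        fun s => P (γ s i) (deriv γ s i) s := by
      funext s
      exact Lv_eq e3 f i (γ s) (deriv γ s) s
    rw [h2] at h1
    exact h1

end

theorem main_thm (h1 : P_SMOOTH) (h2 : P_DER) (h3 : P_CVX) (h4 : P_SUP) (h5 : P_LEG)
    (h6 : P_CORE) (h7 : P_GB) (h8 : P_COMPL) : P_MAIN := by
  obtain ⟨l, P, c1, c2, e1', e2', e3, e4', e5, e6, e7⟩ := h5 h
    (h1.log fun q => (h2 q.1 q.2.1 q.2.2).1.ne')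
    (fun x p t => h_cvx h2 h3 x p t) h4.1 h4.2 (fun x p t => h_per x p t)
  have e1 : ∀ x v t : ℝ, hp x (P x v t) t = v := by
    intro x v t
    have := e1' x v t
    rwa [h_deriv h2] at this
  have e2 : ∀ x p t : ℝ, P x (hp x p t) t = p := by
    intro x p t
    have := e2' x p t
    rwa [h_deriv h2] at this
  have e4 : ∀ x v t : ℝ, HasDerivAt (fun s => l s v t) (fo x (P x v t) t) x := by
    intro x v t
    have := e4' x v t
    rwa [(h_dx h2 x (P x v t) t).deriv, neg_neg] at this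
  intro n
  refine ⟨LL n l, ⟨?_, ?_, ?_, ?_, ?_⟩, ?_⟩
  · -- smooth
    unfold LL
    refine ContDiff.sum fun i _ => ?_
    have h9 : ContDiff ℝ (⊤ : ℕ∞) (fun q : (Fin n → ℝ) × (Fin n → ℝ) × ℝ =>
        ((q.1 i, q.2.1 i, q.2.2) : ℝ × ℝ × ℝ)) := by fun_prop
    exact c1.comp h9
  · -- periodic
    intro x v t k m
    unfold LL
    exact Finset.sum_congr rfl fun i _ => per_int e7 (x i) (v i) t (k i) m
  · -- convex
    intro x v t w hw
    have d1 : deriv (fun s : ℝ => LL n l x (v + s • w) t) =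
        fun s => ∑ i, P (x i) (v i + s * w i) t * w i := by
      funext s
      refine HasDerivAt.deriv ?_
      unfold LL
      refine HasDerivAt.fun_sum fun i _ => ?_
      have h9 : HasDerivAt (fun s : ℝ => v i + s * w i) (w i) s := by
        have := ((hasDerivAt_id s).mul_const (w i)).const_add (v i)
        simpa using this
      have h10 := HasDerivAt.comp s (e3 (x i) (v i + s * w i) t) h9
      exact h10
    have c3 : ∀ i : Fin n, Differentiable ℝ (fun s : ℝ => P (x i) s t) := by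
      intro i
      have h9 : ContDiff ℝ (⊤ : ℕ∞) (fun s : ℝ => ((x i, s, t) : ℝ × ℝ × ℝ)) := by fun_prop
      exact (c2.comp h9).differentiable (by simp)
    have d2 : HasDerivAt (fun s : ℝ => ∑ i, P (x i) (v i + s * w i) t * w i)
        (∑ i, deriv (fun s => P (x i) s t) (v i) * w i * w i) 0 := by
      refine HasDerivAt.fun_sum fun i _ => ?_
      have h9 : HasDerivAt (fun s : ℝ => v i + s * w i) (w i) 0 := by
        have := ((hasDerivAt_id (0 : ℝ)).mul_const (w i)).const_add (v i)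
        simpa using this
      have h11 : HasDerivAt (fun s : ℝ => P (x i) s t) (deriv (fun s => P (x i) s t) (v i))
          (v i + 0 * w i) := by
        rw [zero_mul, add_zero]
        exact ((c3 i) (v i)).hasDerivAt
      have h10 := HasDerivAt.comp (0 : ℝ) h11 h9
      exact h10.mul_const (w i)
    rw [d1, d2.deriv]
    obtain ⟨i0, hi0⟩ : ∃ i, w i ≠ 0 := by
      by_contra hc
      push Not at hc
      exact hw (funext hc)
    refine Finset.sum_pos' (fun i _ => ?_) ⟨i0, Finset.mem_univ _, ?_⟩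
    · have := e5 (x i) (v i) t
      rw [mul_assoc]
      exact mul_nonneg this.le (mul_self_nonneg _)
    · have := e5 (x i0) (v i0) t
      rw [mul_assoc]
      exact mul_pos this (mul_self_pos.2 hi0)
  · -- superlinear
    intro K
    obtain ⟨B, hB⟩ := e6 |K|
    refine ⟨n * B, fun x v t => ?_⟩
    have h9 : ∑ i : Fin n, (|K| * |v i| - B) ≤ LL n l x v t :=
      Finset.sum_le_sum fun i _ => hB (x i) (v i) t
    have h10 : ‖v‖ ≤ ∑ i : Fin n, |v i| := by
      refine (pi_norm_le_iff_of_nonneg (Finset.sum_nonneg fun i _ => abs_nonneg _)).2 fun i => ?_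
      rw [Real.norm_eq_abs]
      exact Finset.single_le_sum (f := fun i => |v i|) (fun i _ => abs_nonneg _)
        (Finset.mem_univ i)
    rw [Finset.sum_sub_distrib, ← Finset.mul_sum] at h9
    simp only [Finset.sum_const, Finset.card_univ, Fintype.card_fin, nsmul_eq_mul] at h9
    have h11 : K * ‖v‖ ≤ |K| * ∑ i : Fin n, |v i| :=
      (mul_le_mul_of_nonneg_right (le_abs_self K) (norm_nonneg v)).trans
        (mul_le_mul_of_nonneg_left h10 (abs_nonneg K))
    linarith
  · -- global existence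
    intro t0 x0 v0
    have h9 := exist (n := n) h8 e1 e2 e3 e4 (f := fun _ _ => 0) contDiff_const
      (fun _ _ _ _ => rfl) t0 x0 v0
    simp only [add_zero] at h9
    exact h9
  · intro f hf hper
    refine ⟨fun t0 x0 v0 => exist h8 e1 e2 e3 e4 hf hper t0 x0 v0, ?_⟩
    obtain ⟨G, hG, hGb⟩ := h7 n f hf hper
    obtain ⟨k0, hk0⟩ := h6 G hG
    set U : Set ((Fin n → ℝ) × (Fin n → ℝ)) := {q | ∀ i : Fin n,
      |q.1 i - k0 * (k0 + 1 / 2)| < 1 / 1000 ∧
      |P (q.1 i) (q.2 i) (k0 + 1 / 2) - 3 ^ k0| < 3 ^ k0 / 1000} with hU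
    refine ⟨(k0 : ℝ) + 1 / 2, U, ?_, ?_, ?_⟩
    · have h9 : U = ⋂ i : Fin n, ({q : (Fin n → ℝ) × (Fin n → ℝ) |
          |q.1 i - k0 * (k0 + 1 / 2)| < 1 / 1000} ∩
          {q : (Fin n → ℝ) × (Fin n → ℝ) |
          |P (q.1 i) (q.2 i) (k0 + 1 / 2) - 3 ^ k0| < 3 ^ k0 / 1000}) := by
        ext q
        simp only [hU, Set.mem_ofPred_eq, Set.mem_iInter, Set.mem_inter_iff]
      rw [h9]
      refine isOpen_iInter_of_finite fun i => ?_
      have h10 : Continuous (fun q : (Fin n → ℝ) × (Fin n → ℝ) =>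
          P (q.1 i) (q.2 i) (k0 + 1 / 2)) := by
        have h11 : Continuous (fun q : (Fin n → ℝ) × (Fin n → ℝ) =>
          ((q.1 i, q.2 i, (k0 : ℝ) + 1 / 2) : ℝ × ℝ × ℝ)) := by fun_prop
        exact c2.continuous.comp h11
      refine IsOpen.inter (isOpen_lt ?_ continuous_const) (isOpen_lt ?_ continuous_const)
      · fun_prop
      · exact (h10.sub continuous_const).abs
    · refine ⟨(fun _ => k0 * (k0 + 1 / 2), fun _ => hp (k0 * (k0 + 1 / 2)) (3 ^ k0) (k0 + 1 / 2)),
        fun i => ⟨?_, ?_⟩⟩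
      · simp only [sub_self, abs_zero]
        norm_num
      · simp only [e2, sub_self, abs_zero]
        positivity
    · intro γ hγ hγU i
      have h9 := hk0 (fun t => γ t i) (fun t => P (γ t i) (deriv γ t i) t)
        (fun t => Df f i (γ t) t)
        (fun t => ⟨(ham e1 e3 e4 hf hγ i t).1, (ham e1 e3 e4 hf hγ i t).2, hGb i (γ t) t⟩) 0
        (by
          have := (hγU i).1.le
          simpa using this) ((hγU i).2.le)
      have h10 : ∀ t : ℝ, (k0 : ℝ) + 1 / 2 ≤ t → t - 5 / 2 ≤ deriv γ t i := by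
        intro t ht
        have a0 : (0 : ℝ) ≤ k0 := Nat.cast_nonneg _
        have a1 : (0 : ℝ) ≤ t - 1 / 2 := by linarith
        have a2 : k0 ≤ ⌊t - 1 / 2⌋₊ := Nat.le_floor (by linarith)
        have a3 : (⌊t - 1 / 2⌋₊ : ℝ) ≤ t - 1 / 2 := Nat.floor_le a1
        have a4 : t - 1 / 2 < ⌊t - 1 / 2⌋₊ + 1 := Nat.lt_floor_add_one _
        have a5 := h9 ⌊t - 1 / 2⌋₊ a2 t ⟨by linarith, by linarith⟩
        rw [e1] at a5
        linarith
      refine tendsto_atTop_mono' atTop ?_
        (tendsto_atTop_add_const_right atTop (-(5 / 2) : ℝ) tendsto_id)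
      filter_upwards [eventually_ge_atTop ((k0 : ℝ) + 1 / 2)] with t ht
      have := h10 t ht
      simp only [id]
      linarith

end Pool.Agent.W435.TL
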